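import Pool.Agent.H8.DE.Targets
import Pool.Agent.H33.MC.CLO
import Pool.Agent.H65.MC.NLM

/-!
# Definable classes of bounded NLC-width are in E

Row CL of the board det_modules; the reduction to grammars is the one of `Pool.Agent.H33.MC.CLO`.
-/

set_option autoImplicit false

namespace Pool.Agent.H69.DE

open Pool.Agent.H69.Sp Pool.Agent.H69.VR Pool.Agent.H8.VR Pool.Agent.H8.JS Pool.Agent.H8.MC
  Pool.Agent.H8.DE Pool.Agent.H33.MC

open Classical in
/-- the spectra over a definable class of bounded NLC-width -/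
theorem specC_eq (hNLM : T_NLM) (C : GClass) (k : ℕ) (hdef : Definable C)
    (hC : ∀ n (G : SimpleGraph (Fin n)), 0 < n → C n G →
      ∃ c, NLC k 1 (fun _ => G.Adj) Set.univ c) (Ψ : MS) (φ : C2) (hΨ : BinZero Ψ) :
    ∃ (m : ℕ) (Ψ1 : MS), Ψ1.Below (m + 1) ∧
      specC C Ψ φ = specWM k (m + 1) Ψ1 (ren m φ) := by
  obtain ⟨χ, hχ0, hχ⟩ := hdef
  obtain ⟨M1, hM1⟩ := clo_below Ψ
  obtain ⟨M2, hM2⟩ := clo_below χ
  set m := max M1 M2 with hm
  set Ψ1 : MS := .and (.and Ψ χ) (.and symi (emp m)) with hΨ1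
  have hB : Ψ1.Below (m + 1) := by
    refine ⟨⟨hM1 _ (by omega), hM2 _ (by omega)⟩, ?_, emp_below m⟩
    exact ⟨⟨Nat.succ_pos _, Nat.succ_pos _⟩, Nat.succ_pos _⟩
  refine ⟨m, Ψ1, hB, ?_⟩
  ext n
  constructor
  · rintro ⟨hn, P, R, G, hG, hR, hS, hφ⟩
    refine ⟨hn, P, fun i => if i = 0 then R 0 else if i ≤ m then fun _ _ => False else R (i - m),
      ?_, ?_, ?_⟩
    · obtain ⟨c, hc⟩ := hC n G hn hG
      refine ⟨c, hNLM k (m + 1) (Fin n) _ _ c ?_ ?_⟩
      · have h1 : R 0 = G.Adj := by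
          funext a b
          exact propext (hR a b)
        simpa [h1] using hc
      · intro i a b hi1 hi2
        have h1 : i ≠ 0 := by omega
        have h2 : i ≤ m := by omega
        simp [h1, h2]
    · intro e V
      refine ⟨⟨?_, ?_⟩, ?_, ?_⟩
      · exact (clo_congr (by simp) Ψ hΨ e V).1 (hS e V)
      · refine ((hχ n P _ G hn ?_).2 hG) e V
        intro a b
        simpa using hR a b
      · rw [symi_sat]
        simp only [if_true]
        exact ⟨fun a b h => (hR b a).2 ((hR a b).1 h).symm,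
          fun a h => G.loopless.irrefl a ((hR a a).1 h)⟩
      · rw [emp_sat]
        intro i hi1 hi2 a b
        have h1 : i ≠ 0 := by omega
        simp [h1, hi2]
    · intro v
      rw [ren_sat]
      have h1 : (fun i => (fun i => if i = 0 then R 0 else if i ≤ m then fun _ _ => False
          else R (i - m)) (if i = 0 then 0 else i + m)) = R := by
        funext i
        by_cases hi : i = 0
        · subst hi
          simp
        · have h2 : ¬ (i + m = 0) := by omega
          have h3 : ¬ (i + m ≤ m) := by omega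
          simp only [hi, if_false, h2, h3]
          rw [Nat.add_sub_cancel]
      rw [h1]
      exact hφ v
  · rintro ⟨hn, P, R, -, hS, hφ⟩
    have e0 : ℕ → Fin n := fun _ => ⟨0, hn⟩
    have hs : (∀ a b, R 0 a b → R 0 b a) ∧ ∀ a, ¬ R 0 a a :=
      (symi_sat P R e0 (fun _ => ∅)).1 (hS e0 (fun _ => ∅)).2.1
    set G : SimpleGraph (Fin n) := ⟨R 0, ⟨fun a b h => hs.1 a b h⟩, ⟨hs.2⟩⟩ with hG
    refine ⟨hn, P, fun i => R (if i = 0 then 0 else i + m), G, ?_, ?_, ?_, ?_⟩
    · refine (hχ n P R G hn (fun a b => Iff.rfl)).1 (fun e V => (hS e V).1.2)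
    · intro a b
      simp [hG]
    · intro e V
      exact (clo_congr (by simp) Ψ hΨ e V).1 (hS e V).1.1
    · intro v
      exact (ren_sat m P R φ v).1 (hφ v)

theorem pf_CL (hGR : D_GR) : D_CL := by
  intro C k hdef hC Ψ φ hΨ
  obtain ⟨m, Ψ1, hB, he⟩ := specC_eq Pool.Agent.H65.MC.pf_NLM C k hdef hC Ψ φ hΨ
  rw [he, specWM_eq]
  refine hGR Unit (Fin k) (cwG k (m + 1)) ?_ (m + 1) () Ψ1 (ren m φ) hB
  intro o ho
  obtain ⟨x, -, rfl⟩ := List.mem_map.1 ho
  rfl

end Pool.Agent.H69.DE
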