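import Pool.Agent.H8.DE.Targets

/-!
# From programs with bounded variables to E
-/

set_option autoImplicit false

namespace Pool.Agent.H69.DE

open Pool.Agent.H69.Sp Pool.Agent.H69.VR Pool.Agent.H8.VR Pool.Agent.H8.JS Pool.Agent.H8.MC
  Pool.Agent.H8.DE

theorem below_ex (p : P1) : ∃ k₀ : ℕ, ∀ k, k₀ ≤ k → p.Below k := by
  induction p with
  | nop => exact ⟨0, fun k _ => trivial⟩
  | zer i => exact ⟨i + 1, fun k hk => (show i < k by omega)⟩
  | suc i => exact ⟨i + 1, fun k hk => (show i < k by omega)⟩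
  | cpy i j => exact ⟨i + j + 1, fun k hk => ⟨(show i < k by omega), (show j < k by omega)⟩⟩
  | put i => exact ⟨i + 1, fun k hk => (show i < k by omega)⟩
  | get i p q ih1 ih2 =>
    obtain ⟨a, ha⟩ := ih1
    obtain ⟨b, hb⟩ := ih2
    exact ⟨i + 1 + a + b, fun k hk => ⟨(show i < k by omega), ha k (by omega), hb k (by omega)⟩⟩
  | ife i j p q ih1 ih2 =>
    obtain ⟨a, ha⟩ := ih1
    obtain ⟨b, hb⟩ := ih2
    exact ⟨i + j + 1 + a + b, fun k hk =>
      ⟨(show i < k by omega), (show j < k by omega), ha k (by omega), hb k (by omega)⟩⟩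
  | seq p q ih1 ih2 =>
    obtain ⟨a, ha⟩ := ih1
    obtain ⟨b, hb⟩ := ih2
    exact ⟨a + b, fun k hk => ⟨ha k (by omega), hb k (by omega)⟩⟩
  | lp i p ih1 =>
    obtain ⟨a, ha⟩ := ih1
    exact ⟨i + 1 + a, fun k hk => ⟨(show i < k by omega), ha k (by omega)⟩⟩

theorem pf_E1 (hP0 : D_P0) (hC1 : D_C1) (hPW : D_PW) : D_E1 := by
  intro p K S hK hS
  obtain ⟨k₀, hk₀⟩ := below_ex p
  set k := k₀ + 2 with hk
  obtain ⟨q₁, A, D, h1⟩ := hPW k K (by omega)
  obtain ⟨q₂, A', D', h2⟩ := hC1 k p (hk₀ k (by omega)) 0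
  refine hP0 (.seq q₁ q₂) (A + A') (D + (K + 1) * D') S fun n hn => ?_
  obtain ⟨t, ht, he⟩ := h1 n
  have hB : n + 1 ≤ (n + 1) ^ K := Nat.le_self_pow hK.ne' (n + 1)
  obtain ⟨-, t', ht', he'⟩ := h2 ((n + 1) ^ K) (fun _ => 0) (i1 n) (by
    intro i _
    show (if i = 0 then n else 0) ≤ _
    split_ifs <;> omega) (fun _ _ => rfl)
  refine ⟨_, t + t', Ex.seq q₁ q₂ _ _ _ t t' he he', ?_, ?_⟩
  · have h3 : (n + 1) ^ K + 1 ≤ (n + 1) ^ (K + 1) := by
      rw [pow_succ]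
      nlinarith
    have h4 : ((n + 1) ^ K + 1) ^ D' ≤ (n + 1) ^ ((K + 1) * D') := by
      rw [pow_mul]
      exact Nat.pow_le_pow_left h3 D'
    have h5 : (n + 1) ^ D ≤ (n + 1) ^ (D + (K + 1) * D') :=
      Nat.pow_le_pow_right (by omega) (by omega)
    have h6 : (n + 1) ^ ((K + 1) * D') ≤ (n + 1) ^ (D + (K + 1) * D') :=
      Nat.pow_le_pow_right (by omega) (by omega)
    calc t + t' ≤ A * (n + 1) ^ D + A' * ((n + 1) ^ K + 1) ^ D' := Nat.add_le_add ht ht'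
      _ ≤ A * (n + 1) ^ (D + (K + 1) * D') + A' * (n + 1) ^ (D + (K + 1) * D') :=
        Nat.add_le_add (Nat.mul_le_mul_left _ h5) (Nat.mul_le_mul_left _ (h4.trans h6))
      _ = _ := by ring
  · have h3 : (en k ((n + 1) ^ K) (fun _ => 0) (run ((n + 1) ^ K) p (i1 n))).n 1 =
        (run ((n + 1) ^ K) p (i1 n)).v 1 := by
      have h4 : 1 < k := by omega
      simp only [en, if_pos h4]
    rw [h3]
    exact hS n hn

end Pool.Agent.H69.DE
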